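import Mathlib
import Pool.Agent.H69.Rel

/-!
# Sparse codes

A pair (k, a) of a sequence of delays and a sequence of digits is coded by the binary sequence
0^(k 0) 1 (a 0) 0^(k 1) 1 (a 1) ... .
-/

set_option autoImplicit false

namespace Pool.Agent.H81.TM

open Pool.Agent.H69

/-- The `n`-th digit of the code of `(k, a)`, read from block `j` on. -/
def go (k : ℕ → ℕ) (a : ℕ → Bool) (n j : ℕ) : Bool :=
  if n < k j then false
  else if n = k j then true
  else if n = k j + 1 then a j
  else go k a (n - (k j + 2)) (j + 1)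
termination_by n
decreasing_by omega

/-- The code of `(k, a)`. -/
def code (k : ℕ → ℕ) (a : ℕ → Bool) (n : ℕ) : Bool := go k a n 0

/-- Where the block `j` starts. -/
def start (k : ℕ → ℕ) : ℕ → ℕ
  | 0 => 0
  | j + 1 => start k j + k j + 2

theorem go_lt {k : ℕ → ℕ} {a : ℕ → Bool} {n j : ℕ} (h : n < k j) : go k a n j = false := by
  rw [go]; simp [h]

theorem go_mark (k : ℕ → ℕ) (a : ℕ → Bool) (j : ℕ) : go k a (k j) j = true := by
  rw [go]; simp

theorem go_digit (k : ℕ → ℕ) (a : ℕ → Bool) (j : ℕ) : go k a (k j + 1) j = a j := by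
  rw [go]; simp

theorem go_next (k : ℕ → ℕ) (a : ℕ → Bool) (m j : ℕ) :
    go k a (k j + 2 + m) j = go k a m (j + 1) := by
  rw [go]
  have h1 : ¬ (k j + 2 + m < k j) := by omega
  have h2 : ¬ (k j + 2 + m = k j) := by omega
  have h3 : ¬ (k j + 2 + m = k j + 1) := by omega
  have h4 : k j + 2 + m - (k j + 2) = m := by omega
  simp only [h1, h2, h3, h4, if_false]

theorem go_congr (n : ℕ) : ∀ (j : ℕ) {k k' : ℕ → ℕ} {a a' : ℕ → Bool},
    (∀ i, j ≤ i → i ≤ j + n → k i = k' i) → (∀ i, j ≤ i → i ≤ j + n → a i = a' i) →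
    go k a n j = go k' a' n j := by
  induction n using Nat.strong_induction_on with
  | _ n ih =>
    intro j k k' a a' hk ha
    have e1 : k' j = k j := (hk j (le_refl _) (by omega)).symm
    have e2 : a' j = a j := (ha j (le_refl _) (by omega)).symm
    rw [go.eq_1 k a n j, go.eq_1 k' a' n j, e1, e2]
    by_cases h1 : n < k j
    · simp [h1]
    · by_cases h2 : n = k j
      · simp [h2]
      · by_cases h3 : n = k j + 1
        · simp [h3]
        · simp only [h1, h2, h3, if_false]
          refine ih _ (by omega) (j + 1) ?_ ?_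
          · intro i hi1 hi2
            exact hk i (by omega) (by omega)
          · intro i hi1 hi2
            exact ha i (by omega) (by omega)

theorem code_start (k : ℕ → ℕ) (a : ℕ → Bool) (j : ℕ) :
    ∀ m, code k a (start k j + m) = go k a m j := by
  induction j with
  | zero => intro m; simp [start, code]
  | succ j ih =>
    intro m
    have h : start k (j + 1) + m = start k j + (k j + 2 + m) := by
      simp [start]; omega
    rw [h, ih, go_next]

theorem code_mark (k : ℕ → ℕ) (a : ℕ → Bool) (j : ℕ) :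
    code k a (start k j + k j) = true := by
  rw [code_start, go_mark]

theorem code_digit (k : ℕ → ℕ) (a : ℕ → Bool) (j : ℕ) :
    code k a (start k j + k j + 1) = a j := by
  rw [Nat.add_assoc, code_start, go_digit]

theorem code_lt (k : ℕ → ℕ) (a : ℕ → Bool) (j m : ℕ) (h : m < k j) :
    code k a (start k j + m) = false := by
  rw [code_start, go_lt h]

theorem le_start (k : ℕ → ℕ) (j : ℕ) : j ≤ start k j := by
  induction j with
  | zero => simp
  | succ j ih => simp only [start]; omega

/-- infinitely many ones -/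
theorem code_inf (k : ℕ → ℕ) (a : ℕ → Bool) (m : ℕ) : ∃ n, m ≤ n ∧ code k a n = true :=
  ⟨start k m + k m, by have := le_start k m; omega, code_mark k a m⟩

/-! ### Decoding -/

/-- the first one at a place at least `m` -/
noncomputable def nxt (b : ℕ → Bool) (hb : ∀ m, ∃ n, (decide (m ≤ n) && b n) = true) (m : ℕ) : ℕ :=
  Nat.find (hb m)

/-- the starting places found by decoding -/
noncomputable def pos (b : ℕ → Bool) (hb : ∀ m, ∃ n, (decide (m ≤ n) && b n) = true) (j : ℕ) : ℕ :=
  Nat.rec (motive := fun _ => ℕ) 0 (fun _ IH => nxt b hb IH + 2) j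

theorem code_inf' (k : ℕ → ℕ) (a : ℕ → Bool) (m : ℕ) :
    ∃ n, (decide (m ≤ n) && code k a n) = true := by
  obtain ⟨n, h1, h2⟩ := code_inf k a m
  exact ⟨n, by simp [h1, h2]⟩

theorem nxt_start (k : ℕ → ℕ) (a : ℕ → Bool) (j : ℕ) :
    nxt (code k a) (code_inf' k a) (start k j) = start k j + k j := by
  unfold nxt
  rw [Nat.find_eq_iff]
  refine ⟨by simp [code_mark], ?_⟩
  intro n hn h
  simp only [Bool.and_eq_true, decide_eq_true_eq] at h
  obtain ⟨h1, h2⟩ := h
  obtain ⟨m, rfl⟩ := Nat.exists_eq_add_of_le h1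
  rw [code_lt k a j m (by omega)] at h2
  exact absurd h2 (by simp)

theorem pos_eq (k : ℕ → ℕ) (a : ℕ → Bool) (j : ℕ) :
    pos (code k a) (code_inf' k a) j = start k j := by
  induction j with
  | zero => rfl
  | succ j ih =>
    have : pos (code k a) (code_inf' k a) (j + 1)
        = nxt (code k a) (code_inf' k a) (pos (code k a) (code_inf' k a) j) + 2 := rfl
    rw [this, ih, nxt_start]
    rfl

theorem digit_eq (k : ℕ → ℕ) (a : ℕ → Bool) (j : ℕ) :
    code k a (pos (code k a) (code_inf' k a) (j + 1) - 1) = a j := by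
  rw [pos_eq]
  have : start k (j + 1) - 1 = start k j + k j + 1 := by simp [start]
  rw [this, code_digit]

/-- the digits are computable from the code -/
theorem rc_digits {O : Set (ℕ →. ℕ)} {k : ℕ → ℕ} {a : ℕ → Bool} (hb : Rc O (code k a)) :
    Rc O a := by
  have h1 : Rc O (fun p : ℕ × ℕ => decide (p.1 ≤ p.2) && code k a p.2) := by
    refine Rc.prim2 (f := fun x y : Bool => x && y) Primrec.and ?_ (Rc.comp hb Rc.snd)
    exact Rc.of_primrec (Primrec.nat_le.decide)
  have h2 : Rc O (nxt (code k a) (code_inf' k a)) := Rc.find h1 (code_inf' k a)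
  have h3 : Rc O (pos (code k a) (code_inf' k a)) := by
    refine Rc.nat_rec (f := fun j : ℕ => j) (g := fun _ => (0 : ℕ))
      (h := fun _ _ IH => nxt (code k a) (code_inf' k a) IH + 2) Rc.id (Rc.const 0) ?_
    refine Rc.prim1 (f := fun n : ℕ => n + 2) (Primrec.nat_add.comp Primrec.id (Primrec.const 2)) ?_
    exact Rc.comp h2 (Rc.comp Rc.snd Rc.snd)
  have h4 : Rc O (fun j => code k a (pos (code k a) (code_inf' k a) (j + 1) - 1)) := by
    refine Rc.comp hb ?_
    refine Rc.prim1 (f := fun n : ℕ => n - 1) (Primrec.nat_sub.comp Primrec.id (Primrec.const 1)) ?_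
    exact Rc.comp h3 (Rc.of_primrec Primrec.succ)
  exact h4.of_eq (digit_eq k a)

end Pool.Agent.H81.TM
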