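import Mathlib
import Pool.Agent.H81.TM.Code

/-!
# Continuous invariant functions: the core argument
-/

set_option autoImplicit false

namespace Pool.Agent.H81.TM

open Pool.Agent.H69

/-- The join of two sequences (even and odd places). -/
def join (x y : ℕ → Bool) : ℕ → Bool := fun n => if n % 2 = 0 then x (n / 2) else y (n / 2)

/-- The 0-1-valued function of a sequence. -/
def chi (x : ℕ → Bool) : ℕ → ℕ := fun n => (x n).toNat

/-- Turing reducibility of elements of Cantor space. -/
def LeT (x y : ℕ → Bool) : Prop := TuringReducible (chi x : ℕ →. ℕ) (chi y : ℕ →. ℕ)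

/-- Turing equivalence. -/
def EqT (x y : ℕ → Bool) : Prop := LeT x y ∧ LeT y x

/-! ### Turing reducibility -/

theorem rc_bool {O : Set (ℕ →. ℕ)} {x : ℕ → Bool} (h : Rc O (chi x)) : Rc O x := by
  have h1 : Primrec (fun n : ℕ => decide (n = 1)) :=
    (Primrec.eq (α := ℕ)).decide.comp Primrec.id (Primrec.const 1)
  refine (Rc.prim1 h1 h).of_eq ?_
  intro n
  unfold chi
  cases x n <;> simp

theorem rc_chi {O : Set (ℕ →. ℕ)} {x : ℕ → Bool} (h : Rc O x) : Rc O (chi x) :=
  Rc.prim1 (f := fun b : Bool => b.toNat) (Primrec.dom_bool _) h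

theorem leT_iff {x y : ℕ → Bool} : LeT x y ↔ Rc {(chi y : ℕ →. ℕ)} x :=
  ⟨fun h => rc_bool h, fun h => rc_chi h⟩

theorem rc_self (x : ℕ → Bool) : Rc {(chi x : ℕ →. ℕ)} x := rc_bool (Rc.self (chi x))

theorem leT_refl (x : ℕ → Bool) : LeT x x := leT_iff.2 (rc_self x)

theorem leT_trans {x y z : ℕ → Bool} (h : LeT x y) (h' : LeT y z) : LeT x z :=
  TuringReducible.trans h h'

theorem rc_of_leT {O : Set (ℕ →. ℕ)} {x y : ℕ → Bool} (h : LeT x y) (hy : Rc O y) : Rc O x :=
  rc_bool (Rc.trans1 (X := chi y) h (rc_chi hy))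

theorem rc_join {O : Set (ℕ →. ℕ)} {x y : ℕ → Bool} (hx : Rc O x) (hy : Rc O y) :
    Rc O (join x y) := by
  have hd : Primrec (fun n : ℕ => n / 2) := Primrec.nat_div2.of_eq (fun n => Nat.div2_val n)
  have hm : Primrec (fun n : ℕ => decide (n % 2 = 0)) :=
    (Primrec.eq (α := ℕ)).decide.comp (Primrec.nat_mod.comp Primrec.id (Primrec.const 2))
      (Primrec.const 0)
  refine Rc.ite (c := fun n : ℕ => n % 2 = 0) (Rc.of_primrec hm) ?_ ?_
  · exact Rc.comp hx (Rc.of_primrec hd)
  · exact Rc.comp hy (Rc.of_primrec hd)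

theorem join_even (x y : ℕ → Bool) (n : ℕ) : join x y (2 * n) = x n := by
  unfold join
  rw [if_pos (by omega)]
  congr 1
  omega

theorem join_odd (x y : ℕ → Bool) (n : ℕ) : join x y (2 * n + 1) = y n := by
  unfold join
  rw [if_neg (by omega)]
  congr 1
  omega

theorem rc_left {O : Set (ℕ →. ℕ)} {x y : ℕ → Bool} (h : Rc O (join x y)) : Rc O x := by
  have h1 : Primrec (fun n : ℕ => 2 * n) := Primrec.nat_mul.comp (Primrec.const 2) Primrec.id
  exact (Rc.comp h (Rc.of_primrec h1)).of_eq (join_even x y)

theorem rc_right {O : Set (ℕ →. ℕ)} {x y : ℕ → Bool} (h : Rc O (join x y)) : Rc O y := by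
  have h1 : Primrec (fun n : ℕ => 2 * n + 1) :=
    Primrec.succ.comp (Primrec.nat_mul.comp (Primrec.const 2) Primrec.id)
  exact (Rc.comp h (Rc.of_primrec h1)).of_eq (join_odd x y)

/-- Coordinatewise sum modulo 2. -/
def xr (x y : ℕ → Bool) : ℕ → Bool := fun n => xor (x n) (y n)

theorem rc_xr {O : Set (ℕ →. ℕ)} {x y : ℕ → Bool} (hx : Rc O x) (hy : Rc O y) :
    Rc O (xr x y) :=
  Rc.prim2 (f := fun a b : Bool => xor a b) (Primrec.dom_finite _) hx hy

theorem xr_xr (x y : ℕ → Bool) : xr (xr x y) y = x := by
  funext n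
  simp [xr]

theorem xr_xr' (x y : ℕ → Bool) : xr x (xr x y) = y := by
  funext n
  simp [xr]

/-- translation by a sequence computable from the second coordinate -/
theorem eqT_translate {z a b c : ℕ → Bool}
    (hab : ∀ O : Set (ℕ →. ℕ), Rc O b → Rc O a) :
    EqT (join (join z b) c) (join (join (xr z a) b) c) := by
  constructor
  · rw [leT_iff]
    have h := rc_self (join (join (xr z a) b) c)
    have hc := rc_right h
    have hzb := rc_left h
    have hb := rc_right hzb
    have hz := rc_left hzb
    have hz' := rc_xr hz (hab _ hb)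
    rw [xr_xr] at hz'
    exact rc_join (rc_join hz' hb) hc
  · rw [leT_iff]
    have h := rc_self (join (join z b) c)
    have hc := rc_right h
    have hzb := rc_left h
    have hb := rc_right hzb
    have hz := rc_left hzb
    exact rc_join (rc_join (rc_xr hz (hab _ hb)) hb) hc

/-- a computable sequence, and finitely many changes, do not matter -/
theorem rc_modify {O : Set (ℕ →. ℕ)} {x y : ℕ → Bool} {L : ℕ} (hx : Rc O x)
    (h : ∀ n, L ≤ n → x n = y n) : Rc O y := by
  induction L generalizing x with
  | zero => exact hx.of_eq (fun n => h n (Nat.zero_le n))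
  | succ L ih =>
    have h1 : Rc O (fun n => if n = L then y L else x n) := by
      refine Rc.ite (c := fun n : ℕ => n = L) ?_ (Rc.const _) hx
      exact Rc.of_primrec ((Primrec.eq (α := ℕ)).decide.comp Primrec.id (Primrec.const L))
    refine ih h1 ?_
    intro n hn
    by_cases hnL : n = L
    · simp [hnL]
    · rw [if_neg hnL]
      exact h n (by omega)

/-! ### Topology -/

theorem continuous_join : Continuous (fun p : (ℕ → Bool) × (ℕ → Bool) => join p.1 p.2) := by
  refine continuous_pi ?_
  intro n
  unfold join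
  by_cases h : n % 2 = 0
  · simp only [h, if_true]
    exact (continuous_apply _).comp continuous_fst
  · simp only [h, if_false]
    exact (continuous_apply _).comp continuous_snd

theorem continuous_xr : Continuous (fun p : (ℕ → Bool) × (ℕ → Bool) => xr p.1 p.2) := by
  refine continuous_pi ?_
  intro n
  have h : Continuous (fun q : Bool × Bool => xor q.1 q.2) := continuous_of_discreteTopology
  have h1 : Continuous (fun p : (ℕ → Bool) × (ℕ → Bool) => p.1 n) :=
    (continuous_apply n).comp continuous_fst
  have h2 : Continuous (fun p : (ℕ → Bool) × (ℕ → Bool) => p.2 n) :=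
    (continuous_apply n).comp continuous_snd
  exact h.comp (h1.prodMk h2)

theorem continuous_code : Continuous (fun p : (ℕ → ℕ) × (ℕ → Bool) => code p.1 p.2) := by
  refine continuous_pi ?_
  intro n
  refine IsLocallyConstant.continuous ?_
  rw [IsLocallyConstant.iff_eventually_eq]
  intro p
  have h1 : ∀ᶠ q : (ℕ → ℕ) × (ℕ → Bool) in nhds p,
      ∀ i ∈ Finset.range (n + 1), q.1 i = p.1 i := by
    rw [Filter.eventually_all_finset]
    intro i _
    have hc : Continuous (fun q : (ℕ → ℕ) × (ℕ → Bool) => q.1 i) :=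
      (continuous_apply i).comp continuous_fst
    exact ((isOpen_discrete {p.1 i}).preimage hc).mem_nhds rfl
  have h2 : ∀ᶠ q : (ℕ → ℕ) × (ℕ → Bool) in nhds p,
      ∀ i ∈ Finset.range (n + 1), q.2 i = p.2 i := by
    rw [Filter.eventually_all_finset]
    intro i _
    have hc : Continuous (fun q : (ℕ → ℕ) × (ℕ → Bool) => q.2 i) :=
      (continuous_apply i).comp continuous_snd
    exact ((isOpen_discrete {p.2 i}).preimage hc).mem_nhds rfl
  filter_upwards [h1, h2] with q hq1 hq2
  refine go_congr n 0 ?_ ?_
  · intro i _ hi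
    exact hq1 i (Finset.mem_range.2 (by omega))
  · intro i _ hi
    exact hq2 i (Finset.mem_range.2 (by omega))

/-- basic neighbourhoods in the parameter space -/
theorem exists_level {U : Set ((ℕ → Bool) × (ℕ → ℕ) × (ℕ → Bool))} (hU : IsOpen U)
    {p : (ℕ → Bool) × (ℕ → ℕ) × (ℕ → Bool)} (hp : p ∈ U) :
    ∃ L : ℕ, ∀ q : (ℕ → Bool) × (ℕ → ℕ) × (ℕ → Bool), (∀ i < L, q.1 i = p.1 i) →
      (∀ i < L, q.2.1 i = p.2.1 i) → (∀ i < L, q.2.2 i = p.2.2 i) → q ∈ U := by
  by_contra hcon
  push Not at hcon
  choose q h1 h2 h3 h4 using hcon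
  have ht : Filter.Tendsto q Filter.atTop (nhds p) := by
    refine (Prod.tendsto_iff q p).2 ⟨?_, (Prod.tendsto_iff _ _).2 ⟨?_, ?_⟩⟩
    · rw [tendsto_pi_nhds]
      intro i
      refine tendsto_const_nhds.congr' ?_
      filter_upwards [Filter.eventually_gt_atTop i] with L hL
      exact (h1 L i hL).symm
    · rw [tendsto_pi_nhds]
      intro i
      refine tendsto_const_nhds.congr' ?_
      filter_upwards [Filter.eventually_gt_atTop i] with L hL
      exact (h2 L i hL).symm
    · rw [tendsto_pi_nhds]
      intro i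
      refine tendsto_const_nhds.congr' ?_
      filter_upwards [Filter.eventually_gt_atTop i] with L hL
      exact (h3 L i hL).symm
  have := ht.eventually (hU.mem_nhds hp)
  obtain ⟨L, hL⟩ := this.exists
  exact h4 L hL

/-- delays `k` below `L`, then the delay `K`, then no delay -/
def delay (k : ℕ → ℕ) (L K : ℕ) : ℕ → ℕ := fun i => if i < L then k i else if i = L then K else 0

/-- the code of the first `L` blocks followed by zeros -/
def stop (k : ℕ → ℕ) (a : ℕ → Bool) (L : ℕ) : ℕ → Bool :=
  fun n => if n < start k L then code k a n else false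

theorem start_delay (k : ℕ → ℕ) (L K : ℕ) : ∀ j ≤ L, start (delay k L K) j = start k j := by
  intro j
  induction j with
  | zero => intro _; rfl
  | succ j ih =>
    intro hj
    simp only [start]
    rw [ih (by omega)]
    have : delay k L K j = k j := by unfold delay; rw [if_pos (by omega)]
    rw [this]

/-- below `start k L` the code depends only on the first `L` blocks -/
theorem code_below {k k' : ℕ → ℕ} {a a' : ℕ → Bool} {L : ℕ} (hk : ∀ i < L, k' i = k i)
    (ha : ∀ i < L, a' i = a i) : ∀ n < start k L, code k' a' n = code k a n := by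
  have hst : ∀ j ≤ L, start k' j = start k j := by
    intro j
    induction j with
    | zero => intro _; rfl
    | succ j ih =>
      intro hj
      simp only [start]
      rw [ih (by omega), hk j (by omega)]
  intro n hn
  -- find the block of n
  have hex : ∃ j < L, start k j ≤ n ∧ n < start k (j + 1) := by
    clear hst hk ha
    induction L with
    | zero => exact absurd hn (by simp [start])
    | succ L ih =>
      by_cases h : n < start k L
      · obtain ⟨j, hj, h1, h2⟩ := ih h
        exact ⟨j, by omega, h1, h2⟩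
      · exact ⟨L, by omega, by omega, hn⟩
  obtain ⟨j, hj, h1, h2⟩ := hex
  obtain ⟨m, rfl⟩ := Nat.exists_eq_add_of_le h1
  have e1 : code k' a' (start k j + m) = go k' a' m j := by
    rw [← hst j (by omega)]
    exact code_start k' a' j m
  rw [e1, code_start k a j m]
  simp only [start] at h2
  rw [go.eq_1 k' a' m j, go.eq_1 k a m j, hk j hj, ha j hj]
  by_cases c1 : m < k j
  · simp [c1]
  · by_cases c2 : m = k j
    · simp [c2]
    · by_cases c3 : m = k j + 1
      · simp [c3]
      · omega

theorem tendsto_stop (k : ℕ → ℕ) (a a' : ℕ → Bool) (L : ℕ) (ha : ∀ i < L, a' i = a i) :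
    Filter.Tendsto (fun K => code (delay k L K) a') Filter.atTop (nhds (stop k a L)) := by
  rw [tendsto_pi_nhds]
  intro n
  refine tendsto_const_nhds.congr' ?_
  filter_upwards [Filter.eventually_gt_atTop n] with K hK
  unfold stop
  by_cases h : n < start k L
  · rw [if_pos h]
    symm
    refine code_below ?_ ha n h
    intro i hi
    unfold delay
    rw [if_pos hi]
  · rw [if_neg h]
    symm
    obtain ⟨m, rfl⟩ := Nat.exists_eq_add_of_le (not_lt.1 h)
    rw [← start_delay k L K L (le_refl _)]
    refine code_lt _ _ L m ?_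
    unfold delay
    rw [if_neg (lt_irrefl _), if_pos rfl]
    omega

theorem rc_stop {O : Set (ℕ →. ℕ)} (k : ℕ → ℕ) (a : ℕ → Bool) (L : ℕ) : Rc O (stop k a L) := by
  refine rc_modify (x := fun _ => false) (L := start k L) (Rc.const false) ?_
  intro n hn
  unfold stop
  rw [if_neg (by omega)]

/-! ### The core theorem -/

/-- Let `E` be an equivalence relation on `Y` that is a countable union of closed sets. A
continuous map on Cantor space which takes equal values modulo `E` at points whose joins with `c`
are Turing equivalent is constant modulo `E`. -/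
theorem core {Y : Type*} [TopologicalSpace Y] {ι : Type*} [Countable ι]
    (E : Y → Y → Prop) (hE : Equivalence E) (R : ι → Set (Y × Y)) (hR : ∀ i, IsClosed (R i))
    (hER : ∀ y y', E y y' ↔ ∃ i, (y, y') ∈ R i)
    (c : ℕ → Bool) (F : (ℕ → Bool) → Y) (hF : Continuous F)
    (hinv : ∀ x y, EqT (join x c) (join y c) → E (F x) (F y)) :
    ∀ x y, E (F x) (F y) := by
  -- the closed sets of parameters
  let H : ι → Set ((ℕ → Bool) × (ℕ → ℕ) × (ℕ → Bool)) := fun i =>
    {p | (F (join p.1 (code p.2.1 p.2.2)), F (join (xr p.1 p.2.2) (code p.2.1 p.2.2))) ∈ R i}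
  have hcode : Continuous
      (fun p : (ℕ → Bool) × (ℕ → ℕ) × (ℕ → Bool) => code p.2.1 p.2.2) :=
    continuous_code.comp continuous_snd
  have hG1 : Continuous (fun p : (ℕ → Bool) × (ℕ → ℕ) × (ℕ → Bool) =>
      F (join p.1 (code p.2.1 p.2.2))) :=
    hF.comp (continuous_join.comp (continuous_fst.prodMk hcode))
  have hxr : Continuous (fun p : (ℕ → Bool) × (ℕ → ℕ) × (ℕ → Bool) => xr p.1 p.2.2) :=
    continuous_xr.comp (continuous_fst.prodMk (continuous_snd.comp continuous_snd))
  have hG2 : Continuous (fun p : (ℕ → Bool) × (ℕ → ℕ) × (ℕ → Bool) =>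
      F (join (xr p.1 p.2.2) (code p.2.1 p.2.2))) :=
    hF.comp (continuous_join.comp (hxr.prodMk hcode))
  have hHc : ∀ i, IsClosed (H i) := fun i => (hR i).preimage (hG1.prodMk hG2)
  have hHU : (⋃ i, H i) = Set.univ := by
    rw [Set.eq_univ_iff_forall]
    rintro ⟨z, k, a⟩
    have h1 : E (F (join z (code k a))) (F (join (xr z a) (code k a))) :=
      hinv _ _ (eqT_translate (fun O hb => rc_digits hb))
    obtain ⟨i, hi⟩ := (hER _ _).1 h1
    exact Set.mem_iUnion.2 ⟨i, hi⟩
  obtain ⟨i, p, hp⟩ := nonempty_interior_of_iUnion_of_closed hHc hHU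
  obtain ⟨L, hL⟩ := exists_level isOpen_interior hp
  obtain ⟨z0, k0, a0⟩ := p
  -- the limit
  have key : ∀ w : ℕ → Bool, (∀ i < L, w i = xr z0 a0 i) →
      E (F (join z0 (stop k0 a0 L))) (F (join w (stop k0 a0 L))) := by
    intro w hw
    have hmem : ∀ K, (F (join z0 (code (delay k0 L K) (xr z0 w))),
        F (join w (code (delay k0 L K) (xr z0 w)))) ∈ R i := by
      intro K
      have h1 : (z0, delay k0 L K, xr z0 w) ∈ interior (H i) := by
        refine hL _ (fun _ _ => rfl) ?_ ?_
        · intro j hj
          show delay k0 L K j = k0 j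
          unfold delay
          rw [if_pos hj]
        · intro j hj
          show xr z0 w j = a0 j
          have := hw j hj
          unfold xr at this ⊢
          rw [this]
          cases z0 j <;> cases a0 j <;> rfl
      have h2 := interior_subset h1
      have h3 : (F (join z0 (code (delay k0 L K) (xr z0 w))),
          F (join (xr z0 (xr z0 w)) (code (delay k0 L K) (xr z0 w)))) ∈ R i := h2
      rwa [xr_xr'] at h3
    have hlim := tendsto_stop k0 a0 (xr z0 w) L (by
      intro j hj
      have := hw j hj
      unfold xr at this ⊢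
      rw [this]
      cases z0 j <;> cases a0 j <;> rfl)
    have hc1 : Continuous (fun b : ℕ → Bool => (F (join z0 b), F (join w b))) :=
      (hF.comp (continuous_join.comp (continuous_const.prodMk continuous_id))).prodMk
        (hF.comp (continuous_join.comp (continuous_const.prodMk continuous_id)))
    have h5 := (hc1.tendsto (stop k0 a0 L)).comp hlim
    have h6 := (hR i).mem_of_tendsto h5 (Filter.Eventually.of_forall hmem)
    exact (hER _ _).2 ⟨i, h6⟩
  have key2 : ∀ x : ℕ → Bool, E (F (join z0 (stop k0 a0 L))) (F x) := by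
    intro x
    let w : ℕ → Bool := fun j => if j < L then xr z0 a0 j else x j
    have hw : ∀ j < L, w j = xr z0 a0 j := fun j hj => if_pos hj
    have hwx : ∀ j, L ≤ j → w j = x j := fun j hj => if_neg (by omega)
    refine hE.trans (key w hw) (hinv _ _ ⟨?_, ?_⟩)
    · rw [leT_iff]
      have h := rc_self (join x c)
      exact rc_join (rc_join (rc_modify (rc_left h) (fun n hn => (hwx n hn).symm))
        (rc_stop k0 a0 L)) (rc_right h)
    · rw [leT_iff]
      have h := rc_self (join (join w (stop k0 a0 L)) c)
      exact rc_join (rc_modify (rc_left (rc_left h)) hwx) (rc_right h)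
  intro x y
  exact hE.trans (hE.symm (key2 x)) (key2 y)

end Pool.Agent.H81.TM
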